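import Pool.Agent.Lib.MP_879098_ag.H66Main
import Pool.Agent.Lib.MP_879098_ag.HyMain

open Pool.Agent.Lib.MP_879098_ag

theorem Pool.Agent.Results.MP_879098_ag.StrongPseudoHyperbolic.result :
    ∃ (n : ℕ) (X : Set (PP n)), IsProjVariety X ∧ IsSmooth X ∧ StrongConn X ∧
      (∃ x ∈ X, ∃ y ∈ X, 0 < kobayashi X x y) ∧
      ∃ (F : MvPolynomial (Fin (n + 1)) ℂ) (d : ℕ), F.IsHomogeneous d ∧ ¬ X ⊆ zeroSet {F} ∧
        ∀ x ∈ X \ zeroSet {F}, ∀ y ∈ X, x ≠ y → 0 < kobayashi X x y :=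
  ⟨63, Sm.YY 2000, Sm.isProjVariety_YY _ (by norm_num), Sm.isSmooth_YY _ (by norm_num),
    H66.strongConn_YY _ (by norm_num), Hy.hyp_mod' le_rfl⟩
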